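import Mathlib
import Pool.Agent.H630R3.BZDefs
import Pool.Agent.H630R3.BZMain

set_option autoImplicit false

namespace Pool.Agent.Results.MP_a0e63f_al.AdjointSl3

open Pool.Agent.H630R3.BZ

/-- For `g = sl_3` and `λ = ω₁ + ω₂` (the adjoint module) both conjectured equalities fail, at the multiplicity of the
trivial module, for every real `q > 0`, `q ≠ 1` (in particular for every transcendental `q`). -/
theorem result :
    ∀ q : ℝ, 0 < q → q ≠ 1 →
      ∃ (M : QOps (Fin 8 → ℂ)) (N : COps (Fin 8 → ℂ)),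
        IsQSimpleOfHighestWeight q M ![1, 1] ∧
        IsCSimpleOfHighestWeight N ![1, 1] ∧
        (∃! R, IsBraiding q M ![1, 1] R) ∧
        (∀ R, IsBraiding q M ![1, 1] R →
          0 < qMult0 ((M.tensor M).tensor M) (qSym3 R) ∧
          0 < qMult0 ((M.tensor M).tensor M) (qExt3 R)) ∧
        symLow0 N = 0 ∧ extLow0 N = 0 :=
  fun q hq0 hq1 => ⟨_, _, main q hq0 hq1⟩

end Pool.Agent.Results.MP_a0e63f_al.AdjointSl3
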